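import Pool.Agent.Helper58.DG.Goals
import Pool.Agent.Helper83.EIN.Total

/-!
# Project DG (MP_06d934_gt), packet T_TOT: the total for one large block
-/

set_option autoImplicit false

namespace Pool.Agent.Helper59.DG

open Pool.Agent.Helper58.DG Pool.Agent.Helper83.EIN Finset

theorem mat_symm (v : Fin 6 → ℝ) (i j : Fin 4) : mat v i j = mat v j i := by
  fin_cases i <;> fin_cases j <;> rfl

theorem jac_s12 (hE : K_EQV) (t : ℝ) (v : Fin 6 → ℝ) :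
    jac (FA (1 / 3) (1 / 3) (1 / 3) t) (s12 v) = jac (FA (1 / 3) (1 / 3) (1 / 3) t) v := by
  have h := hE (nu (1 / 3) (1 / 3) (1 / 3) t) (mat v) (mat_symm v) (Equiv.swap 0 1)
  rw [vec_mat] at h
  have e1 : (fun i ↦ nu (1 / 3) (1 / 3) (1 / 3) t (Equiv.swap (0 : Fin 4) 1 i)) =
      nu (1 / 3) (1 / 3) (1 / 3) t := by
    funext i
    fin_cases i <;> rfl
  have e2 : vec (fun i j ↦ mat v (Equiv.swap (0 : Fin 4) 1 i) (Equiv.swap (0 : Fin 4) 1 j)) =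
      s12 v := by
    funext i
    fin_cases i <;> rfl
  rw [e1, e2, ← FA_eq] at h
  exact h

theorem jac_s23 (hE : K_EQV) (t : ℝ) (v : Fin 6 → ℝ) :
    jac (FA (1 / 3) (1 / 3) (1 / 3) t) (s23 v) = jac (FA (1 / 3) (1 / 3) (1 / 3) t) v := by
  have h := hE (nu (1 / 3) (1 / 3) (1 / 3) t) (mat v) (mat_symm v) (Equiv.swap 1 2)
  rw [vec_mat] at h
  have e1 : (fun i ↦ nu (1 / 3) (1 / 3) (1 / 3) t (Equiv.swap (1 : Fin 4) 2 i)) =
      nu (1 / 3) (1 / 3) (1 / 3) t := by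
    funext i
    fin_cases i <;> rfl
  have e2 : vec (fun i j ↦ mat v (Equiv.swap (1 : Fin 4) 2 i) (Equiv.swap (1 : Fin 4) 2 j)) =
      s23 v := by
    funext i
    fin_cases i <;> rfl
  rw [e1, e2, ← FA_eq] at h
  exact h

/-- Regions and an involution which preserves the solutions and the determinants. -/
theorem reg_inv {R : ℝ → (Fin 6 → ℝ) → Prop} {σ : ℤ} (h : Reg R σ)
    (s : (Fin 6 → ℝ) → (Fin 6 → ℝ)) (hs : ∀ v, s (s v) = v)
    (hsol : ∀ t v, Sol (1 / 3) (1 / 3) (1 / 3) t v → Sol (1 / 3) (1 / 3) (1 / 3) t (s v))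
    (hj : ∀ t v, jac (FA (1 / 3) (1 / 3) (1 / 3) t) (s v) =
      jac (FA (1 / 3) (1 / 3) (1 / 3) t) v) :
    Reg (fun t v ↦ R t (s v)) σ := by
  classical
  obtain ⟨ε, hε, H⟩ := h
  refine ⟨ε, hε, fun t ht htε ↦ ?_⟩
  obtain ⟨Z, h1, h2, h3⟩ := H t ht htε
  have hinj : Function.Injective s := Function.LeftInverse.injective hs
  refine ⟨Z.image s, ?_, ?_, ?_⟩
  · intro v
    rw [Finset.mem_image]
    constructor
    · rintro ⟨w, hw, rfl⟩
      obtain ⟨g1, g2⟩ := (h1 w).1 hw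
      refine ⟨hsol t w g1, ?_⟩
      show R t (s (s w))
      rw [hs]
      exact g2
    · rintro ⟨g1, g2⟩
      exact ⟨s v, (h1 _).2 ⟨hsol t v g1, g2⟩, hs v⟩
  · intro v hv
    rw [Finset.mem_image] at hv
    obtain ⟨w, hw, rfl⟩ := hv
    rw [hj]
    exact h2 w hw
  · rw [Finset.sum_image (fun x _ y _ hxy ↦ hinj hxy), ← h3]
    refine Finset.sum_congr rfl fun v _ ↦ ?_
    rw [hj]

theorem reg_s12 (hE : K_EQV) {R : ℝ → (Fin 6 → ℝ) → Prop} {σ : ℤ} (h : Reg R σ) :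
    Reg (fun t v ↦ R t (s12 v)) σ :=
  reg_inv h s12 s12_s12 (fun _ _ hv ↦ sol_s12 hv) (jac_s12 hE)

theorem reg_s23 (hE : K_EQV) {R : ℝ → (Fin 6 → ℝ) → Prop} {σ : ℤ} (h : Reg R σ) :
    Reg (fun t v ↦ R t (s23 v)) σ :=
  reg_inv h s23 s23_s23 (fun _ _ hv ↦ sol_s23 hv) (jac_s23 hE)

/-- The union of two disjoint regions. -/
theorem reg_union {R R' : ℝ → (Fin 6 → ℝ) → Prop} {σ σ' : ℤ} (h : Reg R σ) (h' : Reg R' σ')
    (hd : ∃ ε > 0, ∀ t : ℝ, 0 < t → t < ε → ∀ v, R t v → R' t v → False) :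
    Reg (fun t v ↦ R t v ∨ R' t v) (σ + σ') := by
  classical
  obtain ⟨ε, hε, H⟩ := h
  obtain ⟨ε', hε', H'⟩ := h'
  obtain ⟨ε₀, hε₀, H₀⟩ := hd
  refine ⟨min (min ε ε') ε₀, by positivity, fun t ht htε ↦ ?_⟩
  have t1 : t < ε := htε.trans_le ((min_le_left _ _).trans (min_le_left _ _))
  have t2 : t < ε' := htε.trans_le ((min_le_left _ _).trans (min_le_right _ _))
  have t3 : t < ε₀ := htε.trans_le (min_le_right _ _)
  obtain ⟨Z, h1, h2, h3⟩ := H t ht t1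
  obtain ⟨Z', h1', h2', h3'⟩ := H' t ht t2
  have hdis : Disjoint Z Z' := by
    rw [Finset.disjoint_left]
    intro v hv hv'
    exact H₀ t ht t3 v ((h1 v).1 hv).2 ((h1' v).1 hv').2
  refine ⟨Z ∪ Z', ?_, ?_, ?_⟩
  · intro v
    rw [Finset.mem_union, h1, h1']
    constructor
    · rintro (⟨g1, g2⟩ | ⟨g1, g2⟩)
      · exact ⟨g1, Or.inl g2⟩
      · exact ⟨g1, Or.inr g2⟩
    · rintro ⟨g1, g2 | g2⟩
      · exact Or.inl ⟨g1, g2⟩
      · exact Or.inr ⟨g1, g2⟩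
  · intro v hv
    rw [Finset.mem_union] at hv
    rcases hv with hv | hv
    · exact h2 v hv
    · exact h2' v hv
  · rw [Finset.sum_union hdis, h3, h3']

theorem reg_congr {R R' : ℝ → (Fin 6 → ℝ) → Prop} {σ : ℤ} (h : Reg R σ)
    (he : ∃ ε > 0, ∀ t : ℝ, 0 < t → t < ε → ∀ v, Sol (1 / 3) (1 / 3) (1 / 3) t v →
      (R t v ↔ R' t v)) : Reg R' σ := by
  obtain ⟨ε, hε, H⟩ := h
  obtain ⟨ε₀, hε₀, H₀⟩ := he
  refine ⟨min ε ε₀, by positivity, fun t ht htε ↦ ?_⟩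
  obtain ⟨Z, h1, h2, h3⟩ := H t ht (htε.trans_le (min_le_left _ _))
  refine ⟨Z, fun v ↦ ?_, h2, h3⟩
  rw [h1]
  constructor
  · rintro ⟨g1, g2⟩
    exact ⟨g1, (H₀ t ht (htε.trans_le (min_le_right _ _)) v g1).1 g2⟩
  · rintro ⟨g1, g2⟩
    exact ⟨g1, (H₀ t ht (htε.trans_le (min_le_right _ _)) v g1).2 g2⟩

theorem t_tot (hE : K_EQV) (hA : A_SUM) (hB : B_SUM) (hK : K_SUM) (hN : N_SUM) : T_TOT := by
  obtain ⟨r₀, hr₀, hK'⟩ := hK
  obtain ⟨r, hr, hrr, hr1⟩ : ∃ r > 0, r ≤ r₀ ∧ r ≤ 1 / 20 :=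
    ⟨min r₀ (1 / 20), by positivity, min_le_left _ _, min_le_right _ _⟩
  have K1 := hK' r hr hrr
  have N1 := hN r hr (by linarith)
  have K2 := reg_s12 hE K1
  have K3 := reg_s23 hE K1
  have B2 := reg_s23 hE hB
  have B3 := reg_s12 hE B2
  have hlt : ∀ t : ℝ, 0 < t → t < 1 / 20 → ∀ x y : ℝ, |x / t - y| < r → y ≤ 4 → x < 1 := by
    intro t ht h20 x y h1 h2
    rw [abs_lt] at h1
    have h3 : x / t < 5 := by linarith [h1.2]
    rw [div_lt_iff₀ ht] at h3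
    linarith
  have U1 := reg_union K2 K3 ⟨1 / 20, by norm_num, fun t ht h20 v g g' ↦ by
    have a1 : |v 0 / t - 2 / 3| < r := g.1
    have a2 : |v 0 / t - 4 / 3| < r := g'.2.1
    rw [abs_lt] at a1 a2
    linarith [a1.1, a1.2, a2.1, a2.2]⟩
  have U2 := reg_union K1 U1 ⟨1 / 20, by norm_num, fun t ht h20 v g g' ↦ by
    rcases g' with g' | g'
    · have a1 : |v 1 / t - 4 / 3| < r := g.2.1
      have a2 : |v 1 / t - 2 / 3| < r := g'.2.2
      rw [abs_lt] at a1 a2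
      linarith [a1.1, a1.2, a2.1, a2.2]
    · have a1 : |v 0 / t - 2 / 3| < r := g.1
      have a2 : |v 0 / t - 4 / 3| < r := g'.2.1
      rw [abs_lt] at a1 a2
      linarith [a1.1, a1.2, a2.1, a2.2]⟩
  have U3 := reg_union N1 U2 ⟨1 / 20, by norm_num, fun t ht h20 v g g' ↦ by
    rcases g' with g' | g' | g'
    · have a1 : |v 0 / t - 5 / 6| < r := g.1
      have a2 : |v 0 / t - 2 / 3| < r := g'.1
      rw [abs_lt] at a1 a2
      linarith [a1.1, a1.2, a2.1, a2.2]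
    · have a1 : |v 0 / t - 5 / 6| < r := g.1
      have a2 : |v 0 / t - 2 / 3| < r := g'.1
      rw [abs_lt] at a1 a2
      linarith [a1.1, a1.2, a2.1, a2.2]
    · have a1 : |v 2 / t - 5 / 6| < r := g.2.2
      have a2 : |v 2 / t - 2 / 3| < r := g'.2.2
      rw [abs_lt] at a1 a2
      linarith [a1.1, a1.2, a2.1, a2.2]⟩
  -- in the small region all of `v 0`, `v 1`, `v 2` are below `1`
  have small : ∀ t : ℝ, 0 < t → t < 1 / 20 → ∀ v : Fin 6 → ℝ,
      ((|v 0 / t - 5 / 6| < r ∧ |v 1 / t - 5 / 6| < r ∧ |v 2 / t - 5 / 6| < r) ∨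
        (|v 0 / t - 2 / 3| < r ∧ |v 1 / t - 4 / 3| < r ∧ |v 2 / t - 2 / 3| < r) ∨
        (|v 0 / t - 2 / 3| < r ∧ |v 2 / t - 4 / 3| < r ∧ |v 1 / t - 2 / 3| < r) ∨
        (|v 1 / t - 2 / 3| < r ∧ |v 0 / t - 4 / 3| < r ∧ |v 2 / t - 2 / 3| < r)) →
      v 0 < 1 ∧ v 1 < 1 ∧ v 2 < 1 := by
    rintro t ht h20 v (⟨g1, g2, g3⟩ | ⟨g1, g2, g3⟩ | ⟨g1, g2, g3⟩ | ⟨g1, g2, g3⟩)
    · exact ⟨hlt t ht h20 _ _ g1 (by norm_num), hlt t ht h20 _ _ g2 (by norm_num),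
        hlt t ht h20 _ _ g3 (by norm_num)⟩
    · exact ⟨hlt t ht h20 _ _ g1 (by norm_num), hlt t ht h20 _ _ g2 (by norm_num),
        hlt t ht h20 _ _ g3 (by norm_num)⟩
    · exact ⟨hlt t ht h20 _ _ g1 (by norm_num), hlt t ht h20 _ _ g3 (by norm_num),
        hlt t ht h20 _ _ g2 (by norm_num)⟩
    · exact ⟨hlt t ht h20 _ _ g2 (by norm_num), hlt t ht h20 _ _ g1 (by norm_num),
        hlt t ht h20 _ _ g3 (by norm_num)⟩
  have U4 := reg_union B3 U3 ⟨1 / 20, by norm_num, fun t ht h20 v g g' ↦ by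
    have a1 : 1 ≤ v 0 := g.2.1
    have a2 := small t ht h20 v g'
    linarith [a2.1]⟩
  have U5 := reg_union B2 U4 ⟨1 / 20, by norm_num, fun t ht h20 v g g' ↦ by
    have a0 : v 1 < 1 := g.1
    have a1 : 1 ≤ v 0 := g.2.1
    rcases g' with g' | g'
    · have a2 : 1 ≤ v 1 := g'.2.2
      linarith
    · have a2 := small t ht h20 v g'
      linarith [a2.1]⟩
  have U6 := reg_union hB U5 ⟨1 / 20, by norm_num, fun t ht h20 v g g' ↦ by
    have a0 : v 0 < 1 := g.1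
    have a1 : 1 ≤ v 1 := g.2.1
    rcases g' with g' | g' | g'
    · have a2 : 1 ≤ v 0 := g'.2.1
      linarith
    · have a2 : 1 ≤ v 0 := g'.2.1
      linarith
    · have a2 := small t ht h20 v g'
      linarith [a2.2.1]⟩
  have U7 := reg_union hA U6 ⟨1 / 20, by norm_num, fun t ht h20 v g g' ↦ by
    have a0 : 1 ≤ v 0 := g.1
    have a1 : 1 ≤ v 1 := g.2.1
    have a2 : 1 ≤ v 2 := g.2.2
    rcases g' with g' | g' | g' | g'
    · have a3 : v 0 < 1 := g'.1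
      linarith
    · have a3 : v 1 < 1 := g'.1
      linarith
    · have a3 : v 2 < 1 := g'.1
      linarith
    · have a3 := small t ht h20 v g'
      linarith [a3.1]⟩
  have h3 : (0 : ℝ) < 1 / 3 := by norm_num
  have h31 : (1 / 3 : ℝ) + 1 / 3 + 1 / 3 = 1 := by norm_num
  obtain ⟨ε, hε, C⟩ := cover ti h3 h3 h3 h31 hr
  have hsc : sc (1 / 3) (1 / 3) (1 / 3) = 5 / 4 := by
    unfold sc
    norm_num
  have hfin := reg_congr (R' := fun _ _ ↦ True) U7 ⟨min ε (1 / 20), by positivity,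
    fun t ht htε v hv ↦ ⟨fun _ ↦ trivial, fun _ ↦ by
      have tε : t < ε := htε.trans_le (min_le_left _ _)
      have t20 : t < 1 / 20 := htε.trans_le (min_le_right _ _)
      have q0 := sm0 ti h3 h3 h3 h31 ht (by linarith) hv
      have q1 := sm1 ti h3 h3 h3 h31 ht (by linarith) hv
      have q2 := sm2 ti h3 h3 h3 h31 ht (by linarith) hv
      have B := bd ti h3 h3 h3 h31 ht (by linarith) hv
      obtain ⟨s1, s2, s3⟩ := B.t1
      rcases lt_or_ge (v 0) 1 with k0 | k0 <;> rcases lt_or_ge (v 1) 1 with k1 | k1 <;>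
        rcases lt_or_ge (v 2) 1 with k2 | k2
      · right; right; right; right
        rcases C t ht tε v hv k0 k1 k2 with ⟨g1, g2, g3⟩ | ⟨g1, g2, g3⟩ | ⟨g1, g2, g3⟩ |
          ⟨g1, g2, g3⟩
        · left
          rw [hsc] at g1 g2 g3
          have e : (5 / 4 : ℝ) * (1 / 3 + 1 / 3) = 5 / 6 := by norm_num
          rw [e] at g1 g2 g3
          exact ⟨g1, g2, g3⟩
        · right; left
          have e : (1 / 3 + 1 / 3 : ℝ) = 2 / 3 := by norm_num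
          have e' : (1 / 3 + 2 * (1 / 3) + 1 / 3 : ℝ) = 4 / 3 := by norm_num
          rw [e] at g1 g3
          rw [e'] at g2
          exact ⟨g1, g2, g3⟩
        · right; right; left
          have e : (1 / 3 + 1 / 3 : ℝ) = 2 / 3 := by norm_num
          have e' : (2 * (1 / 3) + 1 / 3 + 1 / 3 : ℝ) = 4 / 3 := by norm_num
          rw [e] at g1 g2
          rw [e'] at g3
          exact ⟨g1, g3, g2⟩
        · right; right; right
          have e : (1 / 3 + 1 / 3 : ℝ) = 2 / 3 := by norm_num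
          have e' : (1 / 3 + 1 / 3 + 2 * (1 / 3) : ℝ) = 4 / 3 := by norm_num
          rw [e'] at g1
          rw [e] at g2 g3
          exact ⟨g2, g1, g3⟩
      · exfalso
        linarith [q0 k0, q1 k1]
      · exfalso
        linarith [q0 k0, q2 k2]
      · exact Or.inr (Or.inl ⟨k0, k1, k2⟩)
      · exfalso
        linarith [q1 k1, q2 k2]
      · exact Or.inr (Or.inr (Or.inl ⟨k1, k0, k2⟩))
      · exact Or.inr (Or.inr (Or.inr (Or.inl ⟨k2, k0, k1⟩)))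
      · exact Or.inl ⟨k0, k1, k2⟩⟩⟩
  have hnum : (-1 : ℤ) + (-1 + (-1 + (-1 + (1 + (-1 + (-1 + -1)))))) = -6 := by norm_num
  rw [hnum] at hfin
  exact hfin

end Pool.Agent.Helper59.DG
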